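import Pool.Agent.TH393.LB13

set_option autoImplicit false

/-!
# A two-way pushdown language against Boolean combinations of nondeterministic automata

`Prog k V` is a nonuniform nondeterministic program with `k` input heads for the words of one length
`n`: a set `V` of nodes, every node with `k` head positions, and arbitrary moves between nodes which
depend on the symbols under the heads, provided that every head is moved at most one cell from the
place where it, or another head, was before. `HardComb k δ n L` says: if `m ≥ 1` such programs with at
most `s` nodes run in time `T` (every word of length `n` that is accepted is accepted by a computation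
of length at most `T`), and membership in `L` of the words of length `n` is any Boolean function of
the `m` answers, then `δ n ^ 2 ≤ m (n log (m + 1) + T log (2 + m s / n ^ 2))`.
-/

namespace Pool.Agent.Results.MP_d0a708_lc.BooleanCombinations

open Pool.Agent.TH393.LB Pool.Agent.H867R4

/-- There is a language `L` over four letters, accepted by a deterministic two-way pushdown automaton
with one input head, with the following properties.

1. For every `k` there is `δ > 0` such that `HardComb k δ n L` for arbitrarily large `n`.
2. There is `δ > 0` such that the following holds for arbitrarily large `n`. Let `M 0, …, M (m - 1)` be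
   nondeterministic two-way two-head finite automata with at most `q` states which run in time `T` on
   the words of length `n`, and let `B` be any Boolean function such that a word `w` of length `n` is in
   `L` if and only if `B` is true of the answers of `M 0, …, M (m - 1)` on `w`. Then
   `δ n ^ 2 ≤ m (n log (m + 1) + T log (2 + m q))`. -/
theorem result : ∃ L : Set (List (Fin 4)), Pool.Agent.H541R2.TwoDPDA L ∧
    (∀ k : ℕ, ∃ δ : ℝ, 0 < δ ∧ ∀ n₀ : ℕ, ∃ n : ℕ, n₀ ≤ n ∧ HardComb k δ n L) ∧
    ∃ δ : ℝ, 0 < δ ∧ ∀ n₀ : ℕ, ∃ n : ℕ, n₀ ≤ n ∧
      ∀ (m q T : ℕ) (Q : Fin m → Type) (_ : ∀ i, Fintype (Q i)) (M : ∀ i, NMach (Fin 4) 2 (Q i))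
        (B : (Fin m → Prop) → Prop), 1 ≤ m → (∀ i, Fintype.card (Q i) ≤ q) →
        (∀ i, ∀ w : List (Fin 4), w.length = n → (M i).Accepts w →
          ∃ T' ≤ T, ∃ ρ, (M i).AccRun w T' ρ) →
        (∀ w : List (Fin 4), w.length = n → (w ∈ L ↔ B (fun i => (M i).Accepts w))) →
        δ * (n : ℝ) ^ 2 ≤ m * (n * Real.log (m + 1) + T * Real.log (2 + m * q)) :=
  ⟨Pool.Agent.H541R2.theLang, Pool.Agent.H541R2.theLang_twoDPDA, comb_hard, comb_automata⟩

end Pool.Agent.Results.MP_d0a708_lc.BooleanCombinations
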