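import Pool.Agent.TH431.RB.All

/-!
# Two-head automata for a two-way pushdown language: both heads are busy all the time

There is a language `L` over four letters, accepted by a deterministic two-way pushdown automaton with
one head, such that the following holds for nondeterministic two-way two-head finite automata for `L`,
on some word of `L` of length `n`. An accepting computation cannot be split into fewer than `c n` pieces
each of which has at most `n` steps, or at most `c log n` moves of one of the two heads; which of the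
two heads is slow may depend on the piece, and the other head is not restricted in this piece. In
particular each of the two heads makes at least `c n log n` moves, and at least `c log n` sweeps: no
nondeterministic two-way two-head automaton, one head of which makes only `o(log n)` reversals (or
`o(n log n)` moves), accepts `L`.
-/

set_option autoImplicit false

namespace Pool.Agent.Results.MP_d0a708_lc.BothHeadsBusy

open Pool.Agent.H867R4

/-- the number of moves of head `h` between the times `t` and `t'` -/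
def moves {Q : Type} (ρ : ℕ → NCfg 2 Q) (h : Fin 2) (t t' : ℕ) : ℕ :=
  ((Finset.Ico t t').filter (fun s => (ρ (s + 1)).p h ≠ (ρ s).p h)).card

/-- the time up to `T` splits into `I` pieces, each of which has at most `n` steps, or at most `x`
moves of one of the two heads -/
def Splits {Q : Type} (n : ℕ) (x : ℝ) (ρ : ℕ → NCfg 2 Q) (T I : ℕ) : Prop :=
  ∃ t : ℕ → ℕ, t 0 = 0 ∧ t I = T ∧ ∀ j < I, t j ≤ t (j + 1) ∧
    (t (j + 1) ≤ t j + n ∨ ∃ h : Fin 2, (moves ρ h (t j) (t (j + 1)) : ℝ) ≤ x)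

/-- the time up to `T` splits into `I` parts, in each of which head `h` moves in one direction only -/
def Sweeps {Q : Type} (ρ : ℕ → NCfg 2 Q) (h : Fin 2) (T I : ℕ) : Prop :=
  ∃ t : ℕ → ℕ, t 0 = 0 ∧ t I = T ∧ ∀ j < I, t j ≤ t (j + 1) ∧
    ((∀ s, t j ≤ s → s < t (j + 1) → (ρ s).p h ≤ (ρ (s + 1)).p h) ∨
     (∀ s, t j ≤ s → s < t (j + 1) → (ρ (s + 1)).p h ≤ (ρ s).p h))

/-- There is a language `L` over four letters, accepted by a deterministic two-way pushdown automaton
with one input head, such that for every finite set `Q` of states there is `c > 0` with the following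
property, for arbitrarily large `n`. Let `M` be a nondeterministic two-way two-head finite automaton
with state set `Q` which is correct on the words of length `n`. Then for some `w ∈ L` of length `n`,
every accepting computation on `w`, split in any way into `I` pieces each of which has at most `n`
steps or at most `c log n` moves of one of the two heads, has `I ≥ c n`. In particular each of the two
heads makes at least `c n log n` moves, and at least `c log n` sweeps. -/
theorem result : ∃ L : Set (List (Fin 4)), Pool.Agent.H541R2.TwoDPDA L ∧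
    ∀ (Q : Type) (_ : Fintype Q), ∃ c : ℝ, 0 < c ∧ ∀ n₀ : ℕ, ∃ n : ℕ, n₀ ≤ n ∧
      ∀ M : NMach (Fin 4) 2 Q, (∀ w : List (Fin 4), w.length = n → (w ∈ L ↔ M.Accepts w)) →
        ∃ w : List (Fin 4), w.length = n ∧ w ∈ L ∧
          ∀ (T : ℕ) (ρ : ℕ → NCfg 2 Q), M.AccRun w T ρ →
            (∀ I : ℕ, Splits n (c * Real.log n) ρ T I → c * (n : ℝ) ≤ I) ∧
            ∀ h : Fin 2, c * ((n : ℝ) * Real.log n) ≤ moves ρ h 0 T ∧
              ∀ I : ℕ, Sweeps ρ h T I → c * Real.log n ≤ I := by
  refine ⟨Pool.Agent.H541R2.theLang, Pool.Agent.H541R2.theLang_twoDPDA, fun Q _ => ?_⟩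
  obtain ⟨c, hc, H⟩ := Pool.Agent.TH431.RB.final Q
  obtain ⟨c', hc'⟩ : ∃ c' : ℝ, c' = min c (c ^ 2 / 8) := ⟨_, rfl⟩
  have hc'0 : 0 < c' := by rw [hc']; exact lt_min hc (by positivity)
  have hc'1 : c' ≤ c := by rw [hc']; exact min_le_left _ _
  have hc'2 : c' ≤ c ^ 2 / 8 := by rw [hc']; exact min_le_right _ _
  refine ⟨c', hc'0, fun n₀ => ?_⟩
  -- `n` so large that `c log n ≥ 1` and `c n ≥ 2`
  obtain ⟨n₁, hn₁⟩ := Filter.eventually_atTop.mp
    ((Real.tendsto_log_atTop.comp tendsto_natCast_atTop_atTop).eventually_ge_atTop (1 / c))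
  obtain ⟨n₂, hn₂⟩ : ∃ n₂ : ℕ, 2 / c ≤ (n₂ : ℝ) := exists_nat_ge _
  obtain ⟨n, hn, hM⟩ := H (max (max n₀ n₁) (max n₂ 1))
  have hn0 : n₀ ≤ n := le_trans (le_trans (le_max_left _ _) (le_max_left _ _)) hn
  have hn1 : n₁ ≤ n := le_trans (le_trans (le_max_right _ _) (le_max_left _ _)) hn
  have hn2 : n₂ ≤ n := le_trans (le_trans (le_max_left _ _) (le_max_right _ _)) hn
  have hn3 : 1 ≤ n := le_trans (le_trans (le_max_right _ _) (le_max_right _ _)) hn
  refine ⟨n, hn0, fun M hacc => ?_⟩
  obtain ⟨w, hw1, hw2, hw3⟩ := hM M hacc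
  refine ⟨w, hw1, hw2, fun T ρ hρ => ?_⟩
  have hnR : (1 : ℝ) ≤ n := by exact_mod_cast hn3
  have hlog : 0 ≤ Real.log n := Real.log_nonneg hnR
  have hclog : 1 ≤ c * Real.log n := by
    have h1 : 1 / c ≤ Real.log n := hn₁ n hn1
    rw [div_le_iff₀ hc] at h1
    linarith
  have hcn : 2 ≤ c * (n : ℝ) := by
    have h1 : 2 / c ≤ (n : ℝ) := hn₂.trans (by exact_mod_cast hn2)
    rw [div_le_iff₀ hc] at h1
    linarith
  have e : ∀ h t t', moves ρ h t t' = Pool.Agent.TH431.RB.mvs ρ h t t' := fun h t t' => rfl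
  -- many moves
  have hmv : ∀ h : Fin 2, c ^ 2 / 4 * ((n : ℝ) * Real.log n) ≤ moves ρ h 0 T := by
    intro h
    obtain ⟨d, hd⟩ : ∃ d : ℕ, d = ⌊c * Real.log n⌋₊ := ⟨_, rfl⟩
    have hd0 : (d : ℝ) ≤ c * Real.log n := by rw [hd]; exact Nat.floor_le (by linarith)
    have hd1 : 1 ≤ d := by rw [hd, Nat.one_le_floor_iff]; exact hclog
    have hd2 : c * Real.log n < d + 1 := by rw [hd]; exact Nat.lt_floor_add_one _
    have hdR : (1 : ℝ) ≤ d := by exact_mod_cast hd1
    have h1 := hw3 T d _ ρ hρ hd0 (Pool.Agent.TH431.RB.spieces_of_mvs ρ h n hd1)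
    rw [← e] at h1
    push_cast at h1
    have h2 : ((moves ρ h 0 T / d : ℕ) : ℝ) ≤ (moves ρ h 0 T : ℝ) / d := Nat.cast_div_le
    have h3 : c * (n : ℝ) - 1 ≤ (moves ρ h 0 T : ℝ) / d := by linarith
    rw [le_div_iff₀ (by linarith)] at h3
    have h4 : c * (n : ℝ) / 2 ≤ c * (n : ℝ) - 1 := by linarith
    have h5 : c * Real.log n / 2 ≤ d := by linarith
    calc c ^ 2 / 4 * ((n : ℝ) * Real.log n) = (c * (n : ℝ) / 2) * (c * Real.log n / 2) := by ring
      _ ≤ (c * (n : ℝ) - 1) * d := by
          apply mul_le_mul h4 h5 (by positivity) (by linarith)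
      _ ≤ _ := h3
  refine ⟨fun I hI => ?_, fun h => ⟨?_, fun I hI => ?_⟩⟩
  · obtain ⟨t, h0, htI, ht⟩ := hI
    obtain ⟨d, hd⟩ : ∃ d : ℕ, d = ⌊c' * Real.log n⌋₊ := ⟨_, rfl⟩
    have hx0 : 0 ≤ c' * Real.log n := by positivity
    have hd0 : (d : ℝ) ≤ c * Real.log n := by
      rw [hd]
      exact (Nat.floor_le hx0).trans (by gcongr)
    have h1 := hw3 T d I ρ hρ hd0 ⟨t, h0, htI, fun j hj => by
      obtain ⟨a1, a2⟩ := ht j hj
      refine ⟨a1, ?_⟩
      rcases a2 with a2 | ⟨h, a2⟩
      · exact Or.inl a2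
      · refine Or.inr ⟨h, ?_⟩
        rw [← e, hd]
        exact Nat.le_floor a2⟩
    have h2 : c' * (n : ℝ) ≤ c * n := by gcongr
    linarith
  · have h1 := hmv h
    have h2 : c' * ((n : ℝ) * Real.log n) ≤ c ^ 2 / 4 * ((n : ℝ) * Real.log n) := by
      have : c' ≤ c ^ 2 / 4 := by
        have : 0 ≤ c ^ 2 := by positivity
        linarith
      gcongr
    linarith
  · obtain ⟨t, h0, htI, ht⟩ := hI
    obtain ⟨hρ0, hst, hF⟩ := hρ
    have hpos : ∀ s, s ≤ T → (ρ s).p h ≤ n + 1 := by
      intro s hs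
      have := (pos_close (M := M) (w := w) (ρ := ρ) (t := 0) s
        (fun s' _ hs' => hst s' (by omega)) (by rw [hρ0]; intro i; simp) h).2.2
      rwa [Nat.zero_add, hw1] at this
    have h2 := Pool.Agent.TH431.RB.mvs_sweeps hpos t h0 htI ht
    rw [← e] at h2
    have h3 : (moves ρ h 0 T : ℝ) ≤ I * (n + 1) := by exact_mod_cast h2
    have hI0 : (0 : ℝ) ≤ I := by positivity
    have h4 : (c ^ 2 / 4 * Real.log n) * (n : ℝ) ≤ (2 * (I : ℝ)) * (n : ℝ) := by
      calc (c ^ 2 / 4 * Real.log n) * (n : ℝ) = c ^ 2 / 4 * ((n : ℝ) * Real.log n) := by ring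
        _ ≤ (I : ℝ) * ((n : ℝ) + 1) := (hmv h).trans h3
        _ ≤ (I : ℝ) * ((n : ℝ) + n) := by gcongr
        _ = (2 * (I : ℝ)) * (n : ℝ) := by ring
    have h5 : c ^ 2 / 4 * Real.log n ≤ 2 * (I : ℝ) := le_of_mul_le_mul_right h4 (by linarith)
    have h6 : c' * Real.log n ≤ c ^ 2 / 8 * Real.log n := by gcongr
    linarith

end Pool.Agent.Results.MP_d0a708_lc.BothHeadsBusy
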