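import Pool.Agent.TH393.LB20

set_option autoImplicit false

/-!
# A two-way pushdown language against multi-head automata with few long moves and any number of states

`Prog k V` (`Pool.Agent.TH393.LB1`) are nonuniform nondeterministic programs with `k` input heads: a set
`V` of nodes, every node with `k` head positions, and arbitrary moves between nodes which depend on the
symbols under the heads; `NoJump`: every head moves at most one cell per step. `SplitsW n r pos T I`: the
time up to `T` is split into `I` pieces, each of which has at most `n` steps, or is such that every head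
stays within distance `r` of its place at the beginning of the piece, or is such that every head
moves in one direction only during the piece. `HardW k δ n L`: there is a nonempty set `H` of words of
length `n` in `L` such that every such program, of any size, which accepts no word of length `n` outside
`L`, accepts at most a fraction `exp (-δ n)` of the words in `H` by computations which can be split into
`I ≥ 1` such pieces, where `r = n / (3 k + 3)`, with `I log (2 + |V| / n ^ 2) < δ n`.
-/

namespace Pool.Agent.Results.MP_d0a708_lc.LongMoves

open Pool.Agent.TH393.LB Pool.Agent.H867R4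

/-- There is a language `L` over four letters which is accepted by a deterministic two-way pushdown
automaton with one input head, with the following properties.

1. For every `k` there is `δ > 0` such that, for arbitrarily large `n`, `L` and its complement are both
   hard (`HardW k δ n`) for nondeterministic `k`-head programs, and so for nondeterministic two-way
   `k`-head finite automata with a set `Q` of states of any size: if such an automaton is correct on the
   words of length `n`, then some word of length `n` which it accepts has no accepting computation which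
   splits into `I ≥ 1` pieces, each with at most `n` steps, or with every head staying within
   `n / (3 k + 3)` cells of its place at the beginning of the piece, or with every head moving in one
   direction only, where `I log (2 + |Q| (n + 2) ^ k / n ^ 2) < δ n`.
2. There is `c > 0` such that for arbitrarily large `n` every nondeterministic two-way two-head finite
   automaton, with a set `Q` of states of any size, which is correct for `L` (or its complement) on the
   words of length `n`, accepts some word of length `n` only by computations for which
   `I log (|Q| + 1) ≥ c n` for every splitting into `I ≥ 1` such pieces (now within `n / 9` cells), and in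
   which the number of different configurations is at least `c n ^ 2 / log (|Q| + 1) - n`. The constant
   `c` does not depend on `Q`. -/
theorem result : ∃ L : Set (List (Fin 4)), Pool.Agent.H541R2.TwoDPDA L ∧
    (∀ k : ℕ, ∃ δ : ℝ, 0 < δ ∧ ∀ n₀ : ℕ, ∃ n : ℕ, n₀ ≤ n ∧ (HardW k δ n L ∧ HardW k δ n Lᶜ) ∧
      ∀ L' : Set (List (Fin 4)), (L' = L ∨ L' = Lᶜ) → ∀ (Q : Type) (_ : Fintype Q)
        (M : NMach (Fin 4) k Q), (∀ w : List (Fin 4), w.length = n → (w ∈ L' ↔ M.Accepts w)) →
        ∃ w ∈ L', w.length = n ∧ ∀ (T : ℕ) (ρ : ℕ → NCfg k Q), M.AccRun w T ρ →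
          ∀ I : ℕ, 0 < I → SplitsW n (n / (3 * k + 3)) (fun t => (ρ t).p) T I →
            δ * n ≤ I * Real.log (2 + Fintype.card Q * ((n : ℝ) + 2) ^ k / (n : ℝ) ^ 2)) ∧
    ∃ c : ℝ, 0 < c ∧ ∀ n₀ : ℕ, ∃ n : ℕ, n₀ ≤ n ∧
      ∀ L' : Set (List (Fin 4)), (L' = L ∨ L' = Lᶜ) → ∀ (Q : Type) (_ : Fintype Q)
        (M : NMach (Fin 4) 2 Q), (∀ w : List (Fin 4), w.length = n → (w ∈ L' ↔ M.Accepts w)) →
        ∃ w ∈ L', w.length = n ∧ ∀ (T : ℕ) (ρ : ℕ → NCfg 2 Q), M.AccRun w T ρ →
          (∀ I : ℕ, 0 < I → SplitsW n (n / 9) (fun t => (ρ t).p) T I →
            c * n ≤ I * Real.log (Fintype.card Q + 1)) ∧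
          c * (n : ℝ) ^ 2 ≤
            ((ρ '' {t | t ≤ T}).ncard + n) * Real.log (Fintype.card Q + 1) := by
  refine ⟨Pool.Agent.H541R2.theLang, Pool.Agent.H541R2.theLang_twoDPDA, ?_, ?_⟩
  · intro k
    obtain ⟨δ, hδ, h⟩ := hardW_both k
    refine ⟨δ, hδ, fun n₀ => ?_⟩
    obtain ⟨n, hn, hL1, hL2⟩ := h (max n₀ 1)
    refine ⟨n, le_trans (le_max_left _ _) hn, ⟨hL1, hL2⟩, ?_⟩
    have hn1 : 1 ≤ n := le_trans (le_max_right _ _) hn
    rintro L' hL' Q _ M hM
    rcases hL' with rfl | rfl
    · exact automata_of_hardW hδ hn1 hL1 Q M hM
    · exact automata_of_hardW hδ hn1 hL2 Q M hM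
  · obtain ⟨δ, hδ, h⟩ := hardW_both 2
    refine ⟨δ / 4, by positivity, fun n₀ => ?_⟩
    obtain ⟨n, hn, hL1, hL2⟩ := h (max n₀ 1)
    refine ⟨n, le_trans (le_max_left _ _) hn, ?_⟩
    have hn1 : 1 ≤ n := le_trans (le_max_right _ _) hn
    rintro L' hL' Q _ M hM
    rcases hL' with rfl | rfl
    · exact two_headsW hδ hn1 hL1 Q M hM
    · exact two_headsW hδ hn1 hL2 Q M hM

end Pool.Agent.Results.MP_d0a708_lc.LongMoves
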