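import Pool.Agent.TH706.NM.Lower

/-!
# Nondeterministic automata with several heads and a memory: memory times time

There is one language `L` over four letters which is accepted by a deterministic two-way pushdown
automaton with one head, such that nondeterministic machines with `k` two-way heads and `S` bits of
memory (nonuniformly: the memory may have any `2 ^ S` states, depending on the length `n` of the
input) need time `T` with `T (S + log n) ≥ c n²` for `L`.  In particular, if `L` is in
`NHEADS(2)`, then the accepting computations have at least `c n² / log n` steps (this is known from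
the starting result `NondetMultihead`), and a memory of `S = o(n)` bits besides the two heads, or
besides `k` heads, saves at most a factor `S`: with logarithmic space (`NSPACE(log n)`) the time is
at least `c n² / log n` too, with `n ^ δ` bits at least `c n ^ (2 - δ)`.

More precisely, a computation is split into pieces, each of which has at most `n` steps or is
arbitrarily long, but the memory does not change and at most one head moves (while the state of the
finite control may change at each step); then `I (S + log n) ≥ c n` for the number `I` of the pieces.

The starting result `NondetMultihead` is the case without a memory (`S = 0`); the language, its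
pushdown automaton, the coding of the rows against the finite control, and the discrepancy of the
generalised inner product are those of the starting files (`H541R2`, `H867R4`), where a memory is
treated for deterministic machines only.
-/

set_option autoImplicit false

namespace Pool.Agent.Results.MP_d0a708_lc.MemoryTimesTime

open Pool.Agent.H867R4 (NMach NCfg)

/-- The computation `ρ` of a machine with the finite control `Q` and the memory contents `St` splits
up to time `T` into `I` pieces, each of which has at most `n` steps or is a piece during which the
memory does not change and at most one head moves. -/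
def Pieces {k : ℕ} {Q St : Type} (n T I : ℕ) (ρ : ℕ → NCfg k (Q × St)) : Prop :=
  ∃ t : ℕ → ℕ, t 0 = 0 ∧ t I = T ∧ ∀ j < I, t j ≤ t (j + 1) ∧
    (t (j + 1) ≤ t j + n ∨
      ∃ h : Fin k, ∀ s, t j ≤ s → s < t (j + 1) →
        (ρ (s + 1)).q.2 = (ρ s).q.2 ∧ ∀ i, i ≠ h → (ρ (s + 1)).p i = (ρ s).p i)

/-- There is one language `L` over four letters which is accepted by a deterministic two-way pushdown
automaton with one input head and has the following property.  For all `k` and every finite set `Q`
there is `c > 0` such that for arbitrarily large `n` the following holds for every finite set `St` of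
memory contents and every nondeterministic machine `M` with `k` two-way heads, finite control `Q` and
memory `St` which is correct on the words of length `n`: for some `w ∈ L` of length `n`,

* every accepting computation on `w`, split in any way into `I` pieces each of which has at most `n`
  steps or does not change the memory and moves at most one head, satisfies
  `c n ≤ I (log |St| + log n)`;
* every accepting computation on `w` with `T` steps satisfies
  `c n² ≤ (T + n) (log |St| + log n)`. -/
theorem result : ∃ L : Set (List (Fin 4)), Pool.Agent.H541R2.TwoDPDA L ∧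
    ∀ (k : ℕ) (Q : Type) [Fintype Q], ∃ c : ℝ, 0 < c ∧ ∀ n₀ : ℕ, ∃ n : ℕ, n₀ ≤ n ∧
      ∀ (St : Type) [Fintype St] (M : NMach (Fin 4) k (Q × St)),
        (∀ w : List (Fin 4), w.length = n → (w ∈ L ↔ M.Accepts w)) →
        ∃ w : List (Fin 4), w.length = n ∧ w ∈ L ∧
          (∀ (T I : ℕ) (ρ : ℕ → NCfg k (Q × St)), M.AccRun w T ρ → Pieces n T I ρ →
            c * (n : ℝ) ≤ I * (Real.log (Fintype.card St) + Real.log n)) ∧
          (∀ (T : ℕ) (ρ : ℕ → NCfg k (Q × St)), M.AccRun w T ρ →
            c * (n : ℝ) ^ 2 ≤ (T + n) * (Real.log (Fintype.card St) + Real.log n)) := by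
  refine ⟨Pool.Agent.H541R2.theLang, Pool.Agent.H541R2.theLang_twoDPDA, fun k Q _ => ?_⟩
  obtain ⟨c, hc, h⟩ := Pool.Agent.TH706.NM.lower_bound k Q
  refine ⟨c, hc, fun n₀ => ?_⟩
  obtain ⟨n, hn, hM⟩ := h (max n₀ 1)
  have hn1 : 1 ≤ n := (le_max_right _ _).trans hn
  refine ⟨n, (le_max_left _ _).trans hn, fun St _ M hacc => ?_⟩
  obtain ⟨w, hw1, hw2, hw3⟩ := hM St M hacc
  have hnpos : (0 : ℝ) < n := by exact_mod_cast hn1
  have hSt1 : 1 ≤ Fintype.card St := Fintype.card_pos_iff.2 ⟨M.q₀.2⟩
  have hB : 0 ≤ Real.log (Fintype.card St) + Real.log n :=
    add_nonneg (Real.log_nonneg (by exact_mod_cast hSt1)) (Real.log_natCast_nonneg n)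
  refine ⟨w, hw1, hw2, hw3, fun T ρ hρ => ?_⟩
  have hP : Pool.Agent.TH706.NM.Pieces n T (T / n + 1) ρ := by
    refine ⟨fun j => min (j * n) T, by simp, ?_, fun j _ => ⟨?_, Or.inl ?_⟩⟩
    · apply min_eq_right
      have := Nat.lt_mul_of_div_lt (Nat.lt_succ_self (T / n)) (by omega)
      exact this.le
    · exact min_le_min_right _ (Nat.mul_le_mul_right _ (Nat.le_succ _))
    · have e : (j + 1) * n = j * n + n := by ring
      simp only [e]
      omega
  have h1 := hw3 T _ ρ hρ hP
  push_cast at h1
  have h2 : ((T / n : ℕ) : ℝ) ≤ (T : ℝ) / n := Nat.cast_div_le
  have h3 : c * (n : ℝ) ≤ ((T : ℝ) / n + 1) *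
      (Real.log (Fintype.card St) + Real.log n) :=
    h1.trans (mul_le_mul_of_nonneg_right (by linarith) hB)
  calc c * (n : ℝ) ^ 2 = (c * n) * n := by ring
    _ ≤ (((T : ℝ) / n + 1) * (Real.log (Fintype.card St) + Real.log n)) * n :=
        mul_le_mul_of_nonneg_right h3 hnpos.le
    _ = (T + n) * (Real.log (Fintype.card St) + Real.log n) := by
        field_simp

end Pool.Agent.Results.MP_d0a708_lc.MemoryTimesTime
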